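import Pool.Agent.P.MP_cc4a10_gt.Final

/-!
A connected, complete, embedded minimal surface in Euclidean three-space that is not proper.
-/

open Pool.Agent.P.MP_cc4a10_gt

namespace Pool.Agent.Results.MP_cc4a10_gt.NonProper

theorem result : ∃ M : Set E3, IsMinSurf M ∧ IsConnected M ∧ IsIComplete M ∧
    ∃ K : Set E3, IsCompact K ∧ ¬IsCompact (M ∩ K) := qFinal

end Pool.Agent.Results.MP_cc4a10_gt.NonProper
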